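import Mathlib
import Pool.Agent.Helper92.PO.Stmts

set_option autoImplicit false

namespace Pool.Agent.Helper92.PO

open Function Pool.Agent.Helper52.Poly

theorem palw_beq2 {γ : Type} [Enc γ] {a b : γ → Bool} (ha : PF a) (hb : PF b) :
    PF (fun c => beq2 (a c) (b c)) :=
  PF.or (PF.and ha hb) (PF.and (PF.not ha) (PF.not hb))

theorem palw_hd {γ : Type} [Enc γ] {q : γ → Que} (hq : PF q) : PF (fun c => hd (q c)) :=
  PF.headD hq (PF.const ((0, 0), 0))

theorem palw_must {γ : Type} [Enc γ] (hPWD : ST_PWD) {m σ x y : γ → ℕ} (hm : UB m) (hσ : PF σ)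
    (hx : PF x) (hy : PF y) : PF (fun c => mustEmpty (m c) (σ c) (x c) (y c)) := by
  obtain ⟨hwd, -, hJJ, -, -⟩ := hPWD γ m hm
  have h1 : PF (fun c => decide (y c = 0)) := PF.eqNat hy (PF.const 0)
  have h2 : PF (fun c => decide (y c = 2 * m c + 1)) :=
    PF.eqNat hy (PF.add (PF.mul (PF.const 2) hm.1) (PF.const 1))
  have h3 : PF (fun c => decide (x c < σ c + 1)) := PF.lt hx (PF.add hσ (PF.const 1))
  have h4 : PF (fun c => decide (x c = σ c + 1)) := PF.eqNat hx (PF.add hσ (PF.const 1))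
  have h5 : PF (fun c => decide (y c < m c + 1)) := PF.lt hy (PF.add hm.1 (PF.const 1))
  have h6 : PF (fun c => decide (x c + 1 = JJ (m c) * wd (m c))) :=
    PF.eqNat (PF.add hx (PF.const 1)) (PF.mul hJJ.1 hwd.1)
  exact PF.or h1 (PF.or h2 (PF.or h3 (PF.or (PF.and h4 h5) h6)))

theorem st_PALW (hPCON : ST_PCON) (hPLK : ST_PLK) (hPWD : ST_PWD) (hPEQ : ST_PEQ)
    (hPINJ : ST_PINJ) : ST_PALW := by
  intro γ _ m σ ξ z st v hm hσ hξ hz hst hv
  obtain ⟨hwd, -, hJJ, hLL, -⟩ := hPWD γ m hm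
  have z1 : PF (fun c => (z c).1) := PF.fst' hz
  have z2 : PF (fun c => (z c).2.1) := PF.fst' (PF.snd' hz)
  have z3 : PF (fun c => (z c).2.2) := PF.snd' (PF.snd' hz)
  have hx : PF (fun c => (z c).1 * wd (m c) + (z c).2.2) := PF.add (PF.mul z1 hwd.1) z3
  have v1 : PF (fun c => (v c).1) := PF.fst' hv
  have hv0 : PF (fun c => decide ((v c).1 = 0)) := PF.eqNat v1 (PF.const 0)
  have hv1 : PF (fun c => decide ((v c).1 = 1)) := PF.eqNat v1 (PF.const 1)
  -- first condition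
  have a1 : PF (fun c => decide ((z c).1 * wd (m c) + (z c).2.2 = σ c + 1)) :=
    PF.eqNat hx (PF.add hσ (PF.const 1))
  have a2 : PF (fun c => decide ((z c).2.1 = m c + 1)) := PF.eqNat z2 (PF.add hm.1 (PF.const 1))
  have c1 := palw_beq2 (PF.and a1 a2) hv1
  -- second condition
  have c2 := PF.or (PF.not (palw_must hPWD hm hσ hx z2)) hv0
  -- third condition
  have b1 : PF (fun c => decide ((z c).2.2 + 1 = wd (m c))) :=
    PF.eqNat (PF.add z3 (PF.const 1)) hwd.1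
  have hl1 : PF (fun c => lk (ξ c) ((z c).1 * LL (m c) + (z c).2.1)) :=
    hPLK γ ξ _ hξ (PF.add (PF.mul z1 hLL.1) z2)
  have b2 : PF (fun c => decide (v c = lk (ξ c) ((z c).1 * LL (m c) + (z c).2.1))) :=
    hPEQ γ Lab hPINJ.1 v _ hv hl1
  have c3 := PF.or (PF.not b1) b2
  -- fourth condition
  have d1 : PF (fun c => (hd (st c).2).1) := PF.fst' (palw_hd (PF.snd' hst))
  have c4 := (hPCON γ _ v d1 hv).2
  -- fifth condition
  have hl2 : PF (fun c => lk (ξ c) (((z c).1 - 1) * LL (m c) + (z c).2.1)) :=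
    hPLK γ ξ _ hξ (PF.add (PF.mul (PF.sub z1 (PF.const 1)) hLL.1) z2)
  have e1 : PF (fun c => if (z c).1 = 0 then ((0, 0) : Lab) else
      lk (ξ c) (((z c).1 - 1) * LL (m c) + (z c).2.1)) :=
    PF.ite (PF.eqNat z1 (PF.const 0)) (PF.const (0, 0)) hl2
  have e2 : PF (fun c => if (z c).2.2 = 0 then (if (z c).1 = 0 then ((0, 0) : Lab) else
      lk (ξ c) (((z c).1 - 1) * LL (m c) + (z c).2.1)) else (st c).1) :=
    PF.ite (PF.eqNat z3 (PF.const 0)) e1 (PF.fst' hst)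
  have c5 := (hPCON γ _ v e2 hv).1
  have key := PF.and c1 (PF.and c2 (PF.and c3 (PF.and c4 c5)))
  exact key.congr (fun c => rfl)

end Pool.Agent.Helper92.PO
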